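import Pool.Agent.H37.CNS.Stmts

/-!
# Row OM2 of board cns
-/

set_option autoImplicit false

namespace Pool.CND.OM2Aux

open Subgroup

variable {G : Type} [Group G]

/-- an element of `E` which is not central and whose commutators are central elements of `E` -/
lemma exists_elt [Finite G] {p : ℕ} [Fact p.Prime] (hG : IsPGroup p G) (E : Subgroup G)
    [hE : E.Normal] (hc : ¬ E ≤ center G) :
    ∃ a ∈ E, a ∉ center G ∧ ∀ g : G, g * a * g⁻¹ * a⁻¹ ∈ center G := by
  classical
  have hnil : Group.IsNilpotent G := hG.isNilpotent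
  obtain ⟨n, hn⟩ := hnil.nilpotent'
  have hex : ∃ n, ¬ E ⊓ Subgroup.upperCentralSeries G n ≤ center G := ⟨n, by rw [hn, inf_top_eq]; exact hc⟩
  obtain ⟨m, hm⟩ : ∃ m, Nat.find hex = m + 1 := by
    rcases Nat.eq_zero_or_pos (Nat.find hex) with h | h
    · exfalso
      have h1 := Nat.find_spec hex
      rw [h, Subgroup.upperCentralSeries_zero, inf_bot_eq] at h1
      exact h1 bot_le
    · exact ⟨Nat.find hex - 1, by omega⟩
  have h1 := Nat.find_spec hex
  rw [hm] at h1
  have h2 : E ⊓ Subgroup.upperCentralSeries G m ≤ center G := by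
    by_contra h
    have := Nat.find_min' hex h
    omega
  obtain ⟨a, ha, hac⟩ := SetLike.not_le_iff_exists.1 h1
  refine ⟨a, ha.1, hac, fun g => h2 ⟨?_, ?_⟩⟩
  · exact E.mul_mem (hE.conj_mem a ha.1 g) (E.inv_mem ha.1)
  · have h3 := (Subgroup.mem_upperCentralSeries_succ_iff.1 ha.2) g
    have h4 : g * a * g⁻¹ * a⁻¹ = (a * g * a⁻¹ * g⁻¹)⁻¹ := by group
    rw [h4]
    exact (Subgroup.upperCentralSeries G m).inv_mem h3

/-- the commutator homomorphism -/
def psi (a : G) (ha : ∀ g : G, g * a * g⁻¹ * a⁻¹ ∈ center G) : G →* center G where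
  toFun g := ⟨g * a * g⁻¹ * a⁻¹, ha g⟩
  map_one' := by
    apply Subtype.ext
    simp
  map_mul' g h := by
    apply Subtype.ext
    show g * h * a * (g * h)⁻¹ * a⁻¹ = (g * a * g⁻¹ * a⁻¹) * (h * a * h⁻¹ * a⁻¹)
    have h1 := mem_center_iff.1 (ha h) (g * a * g⁻¹ * a⁻¹)
    rw [h1]
    have h2 := mem_center_iff.1 (ha h) g
    calc g * h * a * (g * h)⁻¹ * a⁻¹ = g * (h * a * h⁻¹ * a⁻¹) * (a * g⁻¹ * a⁻¹) := by group
      _ = (h * a * h⁻¹ * a⁻¹) * g * (a * g⁻¹ * a⁻¹) := by rw [h2]
      _ = h * a * h⁻¹ * a⁻¹ * (g * a * g⁻¹ * a⁻¹) := by group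

lemma pow_val_add {p : ℕ} [Fact p.Prime] {a : G} (ha : a ^ p = 1) (x y : ZMod p) :
    a ^ (x + y).val = a ^ x.val * a ^ y.val := by
  rw [← pow_add, ZMod.val_add, pow_mod_eq ha]
  where
  pow_mod_eq {p : ℕ} {a : G} (ha : a ^ p = 1) {n : ℕ} : a ^ (n % p) = a ^ n := by
    conv_rhs => rw [← Nat.mod_add_div n p, pow_add, pow_mul, ha, one_pow, mul_one]

lemma exists_equiv' (p : ℕ) [Fact p.Prime] (V : Type) [AddCommGroup V] [Module (ZMod p) V]
    [Finite V] : ∃ r : ℕ, Nonempty (V ≃+ (Fin r → ZMod p)) :=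
  ⟨Module.finrank (ZMod p) V, ⟨(Module.finBasis (ZMod p) V).equivFun.toAddEquiv⟩⟩

lemma exists_equiv (p : ℕ) [Fact p.Prime] (V : Type) [AddCommGroup V] [Finite V]
    (h : ∀ x : V, p • x = 0) : ∃ r : ℕ, Nonempty (V ≃+ (Fin r → ZMod p)) := by
  let _ : Module (ZMod p) V := AddCommGroup.zmodModule h
  exact exists_equiv' p V

end Pool.CND.OM2Aux

namespace Pool.CND

open Finset Matrix OM2Aux

theorem om2_thm : S_OM2 := by
  intro p G _ _ hp E hcard hEn hEA hEc
  obtain ⟨n, hn⟩ := hcard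
  have hG : IsPGroup p G := IsPGroup.of_card hn
  obtain ⟨a, haE, hac, hag⟩ := exists_elt hG E hEc
  have hap : a ^ p = 1 := hEA.1 a haE
  set ψ := psi a hag with hψ
  have hψE : ∀ g, ((ψ g : Subgroup.center G) : G) ∈ E := fun g =>
    E.mul_mem (hEn.conj_mem a haE g) (E.inv_mem haE)
  let hcg : CommGroup ψ.range :=
    { (inferInstance : Group ψ.range) with
      mul_comm := fun x y => Subtype.ext (Subtype.ext
        ((Subgroup.mem_center_iff.1 y.1.2 (x.1 : G)))) }
  have hexp : ∀ x : Additive ψ.range, p • x = 0 := by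
    intro x
    obtain ⟨⟨y, g, rfl⟩, rfl⟩ := Additive.ofMul.surjective x
    rw [← ofMul_pow]
    apply congrArg Additive.ofMul
    apply Subtype.ext
    apply Subtype.ext
    exact hEA.1 _ (hψE g)
  have hfin : Finite (Additive ψ.range) := inferInstanceAs (Finite ψ.range)
  obtain ⟨r, ⟨e⟩⟩ := exists_equiv p (Additive ψ.range) hexp
  set φ : (Fin r → ZMod p) → G := fun c => (((e.symm c).toMul : ψ.range) : Subgroup.center G)
    with hφ
  have hφc : ∀ c, φ c ∈ Subgroup.center G := fun c => ((e.symm c).toMul : ψ.range).1.2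
  have hφadd : ∀ c c', φ (c + c') = φ c * φ c' := by
    intro c c'
    simp only [hφ, map_add, toMul_add, Subgroup.coe_mul]
  have hφinj : ∀ c, φ c = 1 → c = 0 := by
    intro c h
    have h1 : ((e.symm c).toMul : ψ.range) = 1 := by
      apply Subtype.ext
      apply Subtype.ext
      exact h
    have h2 : e.symm c = 0 := Additive.toMul.injective h1
    exact (map_eq_zero_iff e.symm e.symm.injective).1 h2
  set b : G → (Fin r → ZMod p) := fun g => e (Additive.ofMul ⟨ψ g, ⟨g, rfl⟩⟩) with hb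
  have hφb : ∀ g, φ (b g) = g * a * g⁻¹ * a⁻¹ := by
    intro g
    simp only [hφ, hb, AddEquiv.symm_apply_apply, toMul_ofMul]
    rfl
  have hbadd : ∀ g h, b (g * h) = b g + b h := by
    intro g h
    simp only [hb]
    rw [← map_add, ← ofMul_mul]
    congr 2
    apply Subtype.ext
    exact map_mul ψ g h
  have hbsurj : Function.Surjective b := by
    intro c
    obtain ⟨⟨y, g, rfl⟩, h⟩ := Additive.ofMul.surjective (e.symm c)
    refine ⟨g, ?_⟩
    simp only [hb]
    rw [h, AddEquiv.apply_symm_apply]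
  have hφpow : ∀ (x : ZMod p) (c : Fin r → ZMod p), φ (x • c) = φ c ^ x.val := by
    intro x c
    have h1 : ∀ k : ℕ, φ (k • c) = φ c ^ k := by
      intro k
      induction k with
      | zero =>
        rw [zero_smul, pow_zero]
        have := hφadd 0 0
        rw [add_zero] at this
        exact (mul_eq_left.1 this.symm)
      | succ k ih => rw [add_smul, one_smul, hφadd, ih, pow_succ]
    rw [← h1]
    congr 1
    rw [← Nat.cast_smul_eq_nsmul (ZMod p), ZMod.natCast_zmod_val]
  refine ⟨r, fun s c => a ^ (s 0).val * φ c, fun g => Matrix.of fun i _ => b g i, ?_, ?_, ?_, ?_, ?_, ?_⟩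
  · -- positive rank
    by_contra hr0
    have hr0' : r = 0 := by omega
    have h1 : ∀ c : Fin r → ZMod p, c = 0 := by
      intro c; ext i; exact absurd i.2 (by omega)
    apply hac
    rw [Subgroup.mem_center_iff]
    intro g
    have h2 := hφb g
    rw [h1 (b g), ← h1 (0 + 0), hφadd] at h2
    have h3 : φ 0 = 1 := by
      have := hφadd 0 0
      rw [add_zero] at this
      exact (mul_eq_left.1 this.symm)
    rw [h3, one_mul] at h2
    have h4 : g * a * g⁻¹ = a := by
      have := mul_eq_one_iff_eq_inv.1 h2.symm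
      rw [inv_inv] at this
      exact this
    rw [mul_inv_eq_iff_eq_mul] at h4
    exact h4
  · intro s s' c c'
    simp only [Pi.add_apply]
    rw [pow_val_add hap, hφadd]
    have h1 := Subgroup.mem_center_iff.1 (hφc c) (a ^ (s' 0).val)
    calc a ^ (s 0).val * a ^ (s' 0).val * (φ c * φ c')
        = a ^ (s 0).val * (a ^ (s' 0).val * φ c) * φ c' := by group
      _ = a ^ (s 0).val * (φ c * a ^ (s' 0).val) * φ c' := by rw [h1]
      _ = a ^ (s 0).val * φ c * (a ^ (s' 0).val * φ c') := by group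
  · intro s c h
    have hs0 : s 0 = 0 := by
      by_contra hne
      apply hac
      have h1 : a ^ (s 0).val ∈ Subgroup.center G := by
        rw [mul_eq_one_iff_eq_inv.1 h]
        exact inv_mem (hφc c)
      have h2 : a = (a ^ (s 0).val) ^ ((s 0)⁻¹).val := by
        rw [← pow_mul]
        have h3 : (s 0).val * ((s 0)⁻¹).val % p = 1 := by
          rw [← ZMod.val_mul, mul_inv_cancel₀ hne, ZMod.val_one]
        conv_rhs => rw [← Nat.mod_add_div ((s 0).val * ((s 0)⁻¹).val) p, h3, pow_add, pow_mul,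
          hap, one_pow, mul_one, pow_one]
      rw [h2]
      exact pow_mem h1 _
    have hs : s = 0 := by
      ext i
      rw [Subsingleton.elim i 0, hs0]; rfl
    refine ⟨hs, hφinj c ?_⟩
    simp only [hs0, ZMod.val_zero, pow_zero, one_mul] at h
    exact h
  · intro g h
    ext i j
    simp only [Matrix.of_apply, Matrix.add_apply, hbadd, Pi.add_apply]
  · intro M
    obtain ⟨g, hg⟩ := hbsurj (fun i => M i 0)
    refine ⟨g, ?_⟩
    ext i j
    show b g i = M i j
    rw [hg, Subsingleton.elim j 0]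
  · intro g s c
    have h1 : Matrix.mulVec (Matrix.of fun i (_ : Fin 1) => b g i) s = (s 0) • b g := by
      ext i
      simp [Matrix.mulVec, dotProduct, mul_comm]
    show g * (a ^ (s 0).val * φ c) * g⁻¹ = a ^ (s 0).val *
      φ (c + Matrix.mulVec (Matrix.of fun i (_ : Fin 1) => b g i) s)
    rw [h1, hφadd, hφpow, hφb]
    have h2 : g * (a ^ (s 0).val * φ c) * g⁻¹ = (g * a * g⁻¹) ^ (s 0).val * φ c := by
      rw [conj_pow]
      have h3 := Subgroup.mem_center_iff.1 (hφc c) g⁻¹
      calc g * (a ^ (s 0).val * φ c) * g⁻¹ = g * a ^ (s 0).val * (φ c * g⁻¹) := by group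
        _ = g * a ^ (s 0).val * (g⁻¹ * φ c) := by rw [h3]
        _ = g * a ^ (s 0).val * g⁻¹ * φ c := by group
    have h4 : g * a * g⁻¹ = (g * a * g⁻¹ * a⁻¹) * a := by group
    have h5 : Commute (g * a * g⁻¹ * a⁻¹) a := (Subgroup.mem_center_iff.1 (hag g) a).symm
    have h6 : (g * a * g⁻¹) ^ (s 0).val
        = (g * a * g⁻¹ * a⁻¹) ^ (s 0).val * a ^ (s 0).val := by
      conv_lhs => rw [h4, h5.mul_pow]
    rw [h2, h6]
    have h7 : (g * a * g⁻¹ * a⁻¹) ^ (s 0).val ∈ Subgroup.center G := pow_mem (hag g) _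
    have h8 := Subgroup.mem_center_iff.1 h7 (a ^ (s 0).val)
    have h9 := Subgroup.mem_center_iff.1 (hφc c) ((g * a * g⁻¹ * a⁻¹) ^ (s 0).val)
    rw [← h8, mul_assoc, h9]

end Pool.CND
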